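import Pool.Agent.Helper23_CH.Weights

/-!
A digraph in normal form is not bipartite (helper23; written out by helper63).
-/

namespace Pool.Agent.Helper23CH

open Finset Classical

variable {V : Type*} [Fintype V] {E : V → V → Prop}

/-- the weight of the edges -/
theorem bip_edges {l : V → ℝ} (hl : ∀ x, 0 ≤ l x) (hE : CF E) (A : V → Prop)
    (hA : ∀ x y, E x y → (A x ↔ ¬ A y)) :
    ∑ x, l x * ow E l x ≤ (∑ x, if A x then l x else 0) * ∑ x, if A x then 0 else l x := by
  have h1 : ∑ x, l x * ow E l x = ∑ x, ∑ y, (if A x ∧ ¬ A y then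
      ((if E x y then l x * l y else 0) + (if E y x then l x * l y else 0)) else 0) := by
    have h2 : ∀ x, l x * ow E l x = ∑ y, (if A x ∧ ¬ A y then (if E x y then l x * l y else 0) else 0)
        + ∑ y, (if A y ∧ ¬ A x then (if E x y then l x * l y else 0) else 0) := by
      intro x
      unfold ow
      rw [mul_sum, ← sum_add_distrib]
      refine sum_congr rfl fun y _ => ?_
      by_cases hxy : E x y
      · have h3 := hA x y hxy
        by_cases hx : A x
        · have hy : ¬ A y := h3.mp hx
          simp [hxy, hx, hy]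
        · have hy : A y := by
            by_contra hy
            exact hx (h3.mpr hy)
          simp [hxy, hx, hy]
      · simp [hxy]
    simp only [h2]
    rw [sum_add_distrib]
    conv_lhs =>
      rhs
      rw [sum_comm]
    rw [← sum_add_distrib]
    refine sum_congr rfl fun x _ => ?_
    rw [← sum_add_distrib]
    refine sum_congr rfl fun y _ => ?_
    by_cases h : A x ∧ ¬ A y
    · rw [if_pos h, if_pos h, if_pos h, mul_comm (l y) (l x)]
    · rw [if_neg h, if_neg h, if_neg h, add_zero]
  rw [h1, sum_mul]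
  refine sum_le_sum fun x _ => ?_
  rw [mul_sum]
  refine sum_le_sum fun y _ => ?_
  have hxy : 0 ≤ l x * l y := mul_nonneg (hl x) (hl y)
  by_cases hx : A x
  · by_cases hy : A y
    · simp [hx, hy]
    · have h5 : ¬ (E x y ∧ E y x) := fun h => hE.asym _ _ h.1 h.2
      by_cases h6 : E x y
      · have h7 : ¬ E y x := fun h => h5 ⟨h6, h⟩
        simp [hx, hy, h6, h7]
      · by_cases h7 : E y x
        · simp [hx, hy, h6, h7]
        · simp [hx, hy, h6, h7, hxy]
  · simp [hx]

/-- an out-neighbour of a vertex of maximal weight -/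
theorem bip_max {l : V → ℝ} {e : ℝ} (hE : CF E) (h : NF E l e) (A : V → Prop)
    (hA : ∀ x y, E x y → (A x ↔ ¬ A y)) {q : ℝ} (hq : ∀ y, ¬ A y → l y ≤ q) {x : V} (hx : A x) :
    l x ≤ (∑ x, if A x then l x else 0) - (1 - q) / 3 - e := by
  obtain ⟨y, hy⟩ := h.ne x
  have hyA : ¬ A y := (hA x y hy).mp hx
  have h1 : ow E l y + l x ≤ ∑ x, if A x then l x else 0 := by
    have h2 : l x = ∑ z, if z = x then l z else 0 := by simp
    unfold ow
    rw [h2, ← sum_add_distrib]
    refine sum_le_sum fun z _ => ?_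
    have hz := (h.pos z).le
    by_cases h3 : z = x
    · have h4 : ¬ E y z := by
        rw [h3]
        exact fun h5 => hE.asym _ _ hy h5
      have h5 : A z := by rw [h3]; exact hx
      simp only [if_neg h4, if_pos h3, if_pos h5, zero_add]
      exact le_rfl
    · by_cases h4 : E y z
      · have h5 : A z := by
          by_contra h6
          exact hyA ((hA y z h4).mpr h6)
        simp only [if_pos h4, if_neg h3, if_pos h5, add_zero]
        exact le_rfl
      · simp only [if_neg h4, if_neg h3, add_zero]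
        split_ifs
        · exact hz
        · exact le_rfl
  have h2 := h.eq y
  have h3 := hq y hyA
  linarith

/-- A digraph in normal form is not bipartite. -/
theorem bip_nf {l : V → ℝ} {e : ℝ} (hE : CF E) (h : NF E l e) (A : V → Prop)
    (hA : ∀ x y, E x y → (A x ↔ ¬ A y)) : False := by
  have hB : ∀ x y, E x y → (¬ A x ↔ ¬ ¬ A y) := fun x y hxy => not_congr (hA x y hxy)
  have hVne : Nonempty V := by
    by_contra hcon
    rw [not_nonempty_iff] at hcon
    have := h.tot
    rw [Finset.univ_eq_empty, Finset.sum_empty] at this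
    norm_num at this
  obtain ⟨v⟩ := hVne
  obtain ⟨v', hv'⟩ := h.ne v
  have hex : (∃ x, A x) ∧ ∃ x, ¬ A x := by
    have h1 := hA v v' hv'
    by_cases hv : A v
    · exact ⟨⟨v, hv⟩, ⟨v', h1.mp hv⟩⟩
    · refine ⟨⟨v', ?_⟩, ⟨v, hv⟩⟩
      by_contra h2
      exact hv (h1.mpr h2)
  have hmax : ∀ P : V → Prop, (∃ x, P x) → ∃ x, P x ∧ ∀ y, P y → l y ≤ l x := by
    intro P hP
    obtain ⟨x, hx, hm⟩ := exists_max_image (univ.filter P) l (by
      obtain ⟨x, hx⟩ := hP
      exact ⟨x, by simp [hx]⟩)
    exact ⟨x, (mem_filter.1 hx).2, fun y hy => hm y (mem_filter.2 ⟨mem_univ _, hy⟩)⟩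
  obtain ⟨x, hxA, hx⟩ := hmax A hex.1
  obtain ⟨y, hyA, hy⟩ := hmax (fun z => ¬ A z) hex.2
  have h1 := bip_max hE h A hA (q := l y) hy hxA
  have h2 : l y ≤ (∑ x, if A x then 0 else l x) - (1 - l x) / 3 - e := by
    have h2' := bip_max hE h (fun z => ¬ A z) hB (q := l x) (fun z hz => hx z (not_not.mp hz)) hyA
    calc l y ≤ _ := h2'
      _ = _ := by
        congr 2
        refine sum_congr rfl fun z _ => ?_
        by_cases hz : A z
        · rw [if_neg (not_not.mpr hz), if_pos hz]
        · rw [if_pos hz, if_neg hz]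
  have h3 := bip_edges (fun x => (h.pos x).le) hE A hA
  have hab : (∑ x, if A x then l x else 0) + (∑ x, if A x then 0 else l x) = 1 := by
    rw [← sum_add_distrib, ← h.tot]
    refine sum_congr rfl fun z _ => ?_
    by_cases hz : A z <;> simp [hz]
  have h4 : ∑ z, l z * l z ≤ l x * (∑ x, if A x then l x else 0) +
      l y * ∑ x, if A x then 0 else l x := by
    rw [mul_sum, mul_sum, ← sum_add_distrib]
    refine sum_le_sum fun z _ => ?_
    have hz := (h.pos z).le
    by_cases hzA : A z
    · simp only [if_pos hzA, mul_zero, add_zero]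
      exact mul_le_mul_of_nonneg_right (hx z hzA) hz
    · simp only [if_neg hzA, mul_zero, zero_add]
      exact mul_le_mul_of_nonneg_right (hy z hzA) hz
  have h5 : ∑ z, l z * ow E l z = (1 - ∑ z, l z * l z) / 3 + e := by
    have h6 : ∀ z, l z * ow E l z = (1 / 3 + e) * l z - 1 / 3 * (l z * l z) := by
      intro z
      rw [h.eq z]
      ring
    simp only [h6]
    rw [sum_sub_distrib, ← mul_sum, ← mul_sum, h.tot]
    ring
  rw [h5] at h3
  have he := h.epos
  have ha : 0 ≤ ∑ x, if A x then l x else 0 := by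
    refine sum_nonneg fun z _ => ?_
    split_ifs
    · exact (h.pos z).le
    · exact le_rfl
  have hb : 0 ≤ ∑ x, if A x then 0 else l x := by
    refine sum_nonneg fun z _ => ?_
    split_ifs
    · exact le_rfl
    · exact (h.pos z).le
  generalize (∑ x, if A x then l x else 0) = a at h1 h2 h3 h4 hab ha
  generalize (∑ x, if A x then 0 else l x) = b at h1 h2 h3 h4 hab hb
  generalize ∑ z, l z * l z = s at h3 h4
  generalize l x = p at h1 h2 h4
  generalize l y = q at h1 h2 h4
  have hb' : b = 1 - a := by linarith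
  subst hb'
  have hp : p ≤ 3 * a / 4 - 1 / 8 := by linarith
  have hq : q ≤ 3 * (1 - a) / 4 - 1 / 8 := by linarith
  have h7 : p * a ≤ (3 * a / 4 - 1 / 8) * a := mul_le_mul_of_nonneg_right hp ha
  have h8 : q * (1 - a) ≤ (3 * (1 - a) / 4 - 1 / 8) * (1 - a) := mul_le_mul_of_nonneg_right hq hb
  nlinarith [sq_nonneg (a - 1 / 2)]

end Pool.Agent.Helper23CH
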