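import Mathlib

/-!
Digraphs without directed cycles of length at most three in normal form, for which no vertex has
three pairwise nonadjacent neighbours of mixed direction and for which the nonneighbours of every
vertex contain a sink and a source: they cannot have all outdegrees above one third.
-/

namespace Pool.Agent.Helper23CH

open Finset

variable {V : Type*}

/-- distinct and nonadjacent -/
def NA (E : V → V → Prop) (x y : V) : Prop := x ≠ y ∧ ¬ E x y ∧ ¬ E y x

theorem NA.symm {E : V → V → Prop} {x y : V} (h : NA E x y) : NA E y x :=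
  ⟨h.1.symm, h.2.2, h.2.1⟩

/-- digraph without directed cycles of length at most three -/
structure CF (E : V → V → Prop) : Prop where
  irr : ∀ x, ¬ E x x
  asym : ∀ x y, E x y → ¬ E y x
  c3 : ∀ x y z, E x y → E y z → ¬ E z x

theorem CF.rev {E : V → V → Prop} (h : CF E) : CF (fun x y => E y x) where
  irr := h.irr
  asym := fun x y a b => h.asym y x a b
  c3 := fun x y z a b c => h.c3 y x z a c b

/-- no vertex has three pairwise nonadjacent neighbours of mixed direction -/
def NoMixed (E : V → V → Prop) : Prop :=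
  ∀ y a b c, NA E a b → NA E b c → NA E a c → E a y → E y c → ¬ E b y ∧ ¬ E y b

theorem NoMixed.rev {E : V → V → Prop} (h : NoMixed E) : NoMixed (fun x y => E y x) := by
  intro y a b c hab hbc hac h1 h2
  have hab' : NA E a b := ⟨hab.1, hab.2.2, hab.2.1⟩
  have hbc' : NA E b c := ⟨hbc.1, hbc.2.2, hbc.2.1⟩
  have hac' : NA E a c := ⟨hac.1, hac.2.2, hac.2.1⟩
  have := h y c b a hbc'.symm hab'.symm hac'.symm h2 h1
  exact ⟨this.2, this.1⟩

/-- m is a sink among the nonneighbours of v -/
def SinkNA (E : V → V → Prop) (v m : V) : Prop := NA E v m ∧ ∀ z, NA E v z → ¬ E m z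

/-- the combinatorial facts which follow from the normal form -/
structure Crit (E : V → V → Prop) : Prop where
  /-- the outneighbourhood of an outneighbour of v is not contained in that of v -/
  out : ∀ v y, E v y → ∃ z, E y z ∧ ¬ E v z
  /-- dually -/
  inn : ∀ v y, E y v → ∃ z, E z y ∧ ¬ E z v
  ne : ∀ v, ∃ y, E v y
  ne' : ∀ v, ∃ y, E y v

theorem Crit.rev {E : V → V → Prop} (h : Crit E) : Crit (fun x y => E y x) where
  out := h.inn
  inn := h.out
  ne := h.ne'
  ne' := h.ne

variable {E : V → V → Prop}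

/-- step (1): the outneighbours of a sink of the nonneighbours of v are inneighbours of v -/
theorem sink_out (hE : CF E) (hX : NoMixed E) (hC : Crit E) {v m : V} (hm : SinkNA E v m) :
    ∀ y, E m y → E y v := by
  intro y hy
  by_contra hyv
  have hvy : E v y := by
    by_contra h
    by_cases e : v = y
    · subst e; exact hm.1.2.2 hy
    · exact hm.2 y ⟨e, h, hyv⟩ hy
  obtain ⟨z, hyz, hvz⟩ := hC.out v y hvy
  have hzv : ¬ E z v := fun h => hE.c3 v y z hvy hyz h
  have hz : NA E v z := ⟨fun e => by subst e; exact hE.asym _ _ hvy hyz, hvz, hzv⟩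
  by_cases hmz : m = z
  · subst hmz; exact hE.asym _ _ hy hyz
  have h1 : ¬ E m z := hm.2 z hz
  have h2 : ¬ E z m := fun h => hE.c3 z m y h hy hyz
  exact (hX y v m z hm.1 ⟨hmz, h1, h2⟩ hz hvy hyz).1 hy

/-- step (2): if a is a source of the nonneighbours of u then u is the only sink of the
nonneighbours of a -/
theorem sink_source (hE : CF E) (hX : NoMixed E) (hC : Crit E) {u a m : V}
    (ha : SinkNA (fun x y => E y x) u a) (hm : SinkNA E a m) : m = u := by
  have h1 : ∀ y, E m y → E y a := sink_out hE hX hC hm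
  have h2 : ∀ y, E y a → E u y := sink_out hE.rev hX.rev hC.rev ha
  have h3 : ∀ y, E m y → E u y := fun y hy => h2 y (h1 y hy)
  by_contra hmu
  have h4 : ¬ E m u := fun h => hE.irr u (h3 u h)
  have h5 : ¬ E u m := by
    intro h
    obtain ⟨z, hz, hz'⟩ := hC.out u m h
    exact hz' (h3 z hz)
  obtain ⟨y, hy⟩ := hC.ne m
  have hua : NA E u a := ⟨ha.1.1, ha.1.2.2, ha.1.2.1⟩
  exact (hX y u m a ⟨fun e => hmu e.symm, h5, h4⟩ hm.1.symm hua (h3 y hy) (h1 y hy)).1 hy

/-- step (3): if m is a sink of the nonneighbours of x then every inneighbour of x is an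
outneighbour of m -/
theorem sink_eq (hE : CF E) (hX : NoMixed E) (hC : Crit E)
    (hS : ∀ v, ∃ a, SinkNA (fun x y => E y x) v a) {x m : V} (hm : SinkNA E x m) :
    ∀ v, E v x → E m v := by
  intro v hv
  obtain ⟨a, ha⟩ := hS m
  have hm' : SinkNA (fun x y => E y x) m a := ha
  -- x is the only source of the nonneighbours of m
  have hax : a = x := by
    refine sink_source (E := fun x y => E y x) hE.rev hX.rev hC.rev ?_ hm'
    exact hm
  subst hax
  exact sink_out hE.rev hX.rev hC.rev ha v hv

/-- step (4): outneighbourhoods are tournaments -/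
theorem out_tour (hE : CF E) (hX : NoMixed E) (hC : Crit E)
    (hT : ∀ v, ∃ m, SinkNA E v m) (hS : ∀ v, ∃ a, SinkNA (fun x y => E y x) v a)
    {v x y : V} (hx : E v x) (hy : E v y) : ¬ NA E x y := by
  intro hxy
  obtain ⟨m, hm⟩ := hT x
  have hmv : E m v := sink_eq hE hX hC hS hm v hx
  have h0 : m ≠ y := fun e => by subst e; exact hE.asym _ _ hy hmv
  have h1 : ¬ E m y := hm.2 y hxy
  have h2 : ¬ E y m := fun h => hE.c3 y m v h hmv hy
  have := (hX v m y x ⟨h0, h1, h2⟩ hxy.symm hm.1.symm hmv hx).2
  exact this hy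

end Pool.Agent.Helper23CH
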