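import Pool.Agent.Helper23_CH.Round

/-!
The weighted part: the normal form implies the combinatorial facts `Crit`, and the final
contradiction.
-/

namespace Pool.Agent.Helper23CH

open Finset Classical

variable {V : Type*} [Fintype V] {E : V → V → Prop}

/-- weight of the outneighbours -/
noncomputable def ow (E : V → V → Prop) (l : V → ℝ) (x : V) : ℝ :=
  ∑ y, if E x y then l y else 0

/-- normal form: positive weights of total one, all outdegrees above one third by the same
amount -/
structure NF (E : V → V → Prop) (l : V → ℝ) (e : ℝ) : Prop where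
  pos : ∀ x, 0 < l x
  tot : ∑ x, l x = 1
  epos : 0 < e
  eq : ∀ x, ow E l x = (1 - l x) / 3 + e

theorem ow_le_of_subset {l : V → ℝ} (hl : ∀ x, 0 ≤ l x) {v y : V} (h : ∀ z, E y z → E v z)
    (hvy : E v y) (hyy : ¬ E y y) : ow E l y + l y ≤ ow E l v := by
  have h1 : l y = ∑ z, if z = y then l z else 0 := by simp
  unfold ow
  rw [h1, ← Finset.sum_add_distrib]
  refine Finset.sum_le_sum fun z _ => ?_
  by_cases hz : z = y
  · subst hz
    simp [hyy, hvy]
  · by_cases hyz : E y z
    · simp [hyz, h z hyz, hz]
    · by_cases hvz : E v z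
      · simp [hyz, hvz, hz, hl z]
      · simp [hyz, hvz, hz]

theorem NF.out {l : V → ℝ} {e : ℝ} (hE : CF E) (h : NF E l e) (v y : V) (hvy : E v y) :
    ∃ z, E y z ∧ ¬ E v z := by
  by_contra hcon
  have hsub : ∀ z, E y z → E v z := by
    intro z hz
    by_contra hvz
    exact hcon ⟨z, hz, hvz⟩
  have h1 := ow_le_of_subset (fun x => (h.pos x).le) hsub hvy (hE.irr y)
  rw [h.eq, h.eq] at h1
  have := h.pos y
  have := h.pos v
  linarith

theorem NF.ne {l : V → ℝ} {e : ℝ} (h : NF E l e) (v : V) : ∃ y, E v y := by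
  by_contra hcon
  have h0 : ow E l v = 0 := by
    unfold ow
    refine Finset.sum_eq_zero fun y _ => ?_
    have : ¬ E v y := fun hy => hcon ⟨y, hy⟩
    simp [this]
  have h1 := h.eq v
  have h2 : l v ≤ 1 := by
    rw [← h.tot]
    exact Finset.single_le_sum (fun x _ => (h.pos x).le) (Finset.mem_univ v)
  have := h.epos
  rw [h0] at h1
  linarith

theorem crit_of_nf {l m : V → ℝ} {e e' : ℝ} (hE : CF E) (h : NF E l e)
    (h' : NF (fun x y => E y x) m e') : Crit E where
  out := h.out hE
  inn := h'.out hE.rev
  ne := h.ne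
  ne' := h'.ne

/-- a nonempty finite tournament without directed triangles has a sink -/
theorem tour_sink (hE : CF E) (P : V → Prop) (hP : ∃ x, P x) (ht : ∀ x y, P x → P y → ¬ NA E x y) :
    ∃ w, P w ∧ ∀ y, P y → ¬ E w y := by
  obtain ⟨w, hw, hmax⟩ := Finset.exists_max_image (univ.filter P)
    (fun w => (univ.filter fun z => P z ∧ E z w).card) (by
      obtain ⟨x, hx⟩ := hP
      exact ⟨x, by simp [hx]⟩)
  simp only [Finset.mem_filter, Finset.mem_univ, true_and] at hw hmax
  refine ⟨w, hw, fun y hy hwy => ?_⟩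
  have h1 := hmax y hy
  have h2 : (univ.filter fun z => P z ∧ E z w) ⊂ (univ.filter fun z => P z ∧ E z y) := by
    refine ⟨fun z hz => ?_, fun hsub => ?_⟩
    · simp only [Finset.mem_filter, Finset.mem_univ, true_and] at hz ⊢
      refine ⟨hz.1, ?_⟩
      by_contra hzy
      have hyz : ¬ E y z := hE.c3 z w y hz.2 hwy
      have hne : z ≠ y := fun e => by subst e; exact hE.asym _ _ hwy hz.2
      exact ht z y hz.1 hy ⟨hne, hzy, hyz⟩
    · have : w ∈ (univ.filter fun z => P z ∧ E z y) := by simp [hw, hwy]
      have := hsub this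
      simp only [Finset.mem_filter, Finset.mem_univ, true_and] at this
      exact hE.irr w this.2
  exact absurd h1 (not_le.2 (Finset.card_lt_card h2))

/-- the final contradiction -/
theorem final {l : V → ℝ} {e : ℝ} (hE : CF E) (h : NF E l e)
    (hT : ∀ v, ∃ m, ∀ y, E m y → E y v) (hW : ∀ v, ∃ w, ∀ y, E w y → NA E v y) : False := by
  have hne : Nonempty V := by
    by_contra hcon
    rw [not_nonempty_iff] at hcon
    have := h.tot
    rw [Finset.univ_eq_empty, Finset.sum_empty] at this
    norm_num at this
  obtain ⟨v, -, hv⟩ := Finset.exists_max_image univ l Finset.univ_nonempty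
  obtain ⟨m, hm⟩ := hT v
  obtain ⟨w, hw⟩ := hW v
  have h1 : l v + ow E l v + ow E l m + ow E l w ≤ ∑ x, l x := by
    have h0 : l v = ∑ z, if z = v then l z else 0 := by simp
    unfold ow
    conv_lhs => rw [h0]
    rw [← Finset.sum_add_distrib, ← Finset.sum_add_distrib, ← Finset.sum_add_distrib]
    refine Finset.sum_le_sum fun z _ => ?_
    have hz := (h.pos z).le
    by_cases hzv : z = v
    · have a1 : ¬ E v z := by rw [hzv]; exact hE.irr v
      have a2 : ¬ E m z := fun hh => hE.irr v (by rw [hzv] at hh; exact hm v hh)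
      have a3 : ¬ E w z := fun hh => (hw z hh).1 hzv.symm
      simp only [hzv, if_true] at *
      simp [a1, a2, a3]
    · by_cases b1 : E v z
      · have a2 : ¬ E m z := fun hh => hE.asym _ _ b1 (hm z hh)
        have a3 : ¬ E w z := fun hh => (hw z hh).2.1 b1
        simp [hzv, b1, a2, a3]
      · by_cases b2 : E m z
        · have a3 : ¬ E w z := fun hh => (hw z hh).2.2 (hm z b2)
          simp [hzv, b1, b2, a3]
        · by_cases b3 : E w z
          · simp [hzv, b1, b2, b3]
          · simp [hzv, b1, b2, b3, hz]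
  rw [h.eq, h.eq, h.eq, h.tot] at h1
  have := hv m (Finset.mem_univ m)
  have := hv w (Finset.mem_univ w)
  have := h.epos
  linarith

/-- a digraph in normal form in which no vertex has three pairwise nonadjacent neighbours of mixed
direction, and for which the nonneighbours of every vertex contain a sink and a source, has a
directed cycle of length at most three -/
theorem no_nf {l m : V → ℝ} {e e' : ℝ} (hE : CF E) (h : NF E l e)
    (h' : NF (fun x y => E y x) m e') (hX : NoMixed E)
    (hT : ∀ v, ∃ m, SinkNA E v m) (hS : ∀ v, ∃ a, SinkNA (fun x y => E y x) v a) : False := by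
  have hC := crit_of_nf hE h h'
  refine final hE h (fun v => ?_) (fun v => ?_)
  · obtain ⟨m, hm⟩ := hT v
    exact ⟨m, sink_out hE hX hC hm⟩
  · obtain ⟨w, hw, hw'⟩ := tour_sink hE (fun y => E v y) (hC.ne v)
      (fun x y hx hy => out_tour hE hX hC hT hS hx hy)
    refine ⟨w, fun y hy => ⟨fun e => ?_, fun hvy => hw' y hvy hy, fun hyv => ?_⟩⟩
    · subst e; exact hE.asym _ _ hw hy
    · exact hE.c3 _ _ _ hw hy hyv

end Pool.Agent.Helper23CH
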